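import Pool.Agent.H95.Socks

set_option autoImplicit false
open Pool.Agent.H95.Socks ENNReal

theorem Pool.Agent.Results.MP_c9cfcf_pr.Yes.result (C : Type) (p : C → ℝ≥0∞) (h : ∑' i, p i = 1) :
    D p ≤ 63 / 64 :=
  Pool.Agent.H95.Socks.main C p h
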